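import Pool.Agent.Helper92.AH.Defs

/-!
# MP_c38931_co: MAIN, the theorem for all finite extensions
-/

set_option autoImplicit false

namespace Pool.Agent.Helper92.AH

open MvPolynomial

theorem st_MAIN (hMAINB : ST_MAINB) (hFIELD : ST_FIELD) (hTRANSP : ST_TRANSP) : ST_MAIN := by
  intro F _ _ N M a b c P T Q U R W L m hm hyp
  have hK : ∀ n, 0 < n → m ∣ n → ∃ l, 1 ≤ l ∧ l ≤ L ∧
      SymDesign (fx (Nat.card F) n (Pts P T (AlgebraicClosure F)))
        (fx (Nat.card F) n (Pts Q U (AlgebraicClosure F))) (Inc R W) l := by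
    intro n hn hmn
    obtain ⟨E, hE1, hE2, hE3, hfin, _⟩ := hFIELD.1 F (AlgebraicClosure F) n hn
    obtain ⟨l, h1, h2, h3⟩ := hyp E (by rw [hfin]; exact hmn)
    refine ⟨l, h1, h2, ?_⟩
    have h4 := ((hTRANSP F (AlgebraicClosure F) E N (Fin a) P T).2 M (Fin b) (Fin c) Q U R W l).mp h3
    rw [hfin] at h4
    exact h4
  rcases hMAINB F (AlgebraicClosure F) N M (Fin a) (Fin b) (Fin c) P T Q U R W L m hm hK with h | h
  · left
    refine ⟨(Pts P T (AlgebraicClosure F)).ncard, ?_⟩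
    intro E _ _ _
    rw [(hTRANSP F (AlgebraicClosure F) E N (Fin a) P T).1]
    exact Set.ncard_le_ncard (fun x hx => hx.1) h
  · right
    intro E _ _ _ hE
    have hpos : 0 < Module.finrank F E := Module.finrank_pos
    exact ((hTRANSP F (AlgebraicClosure F) E N (Fin a) P T).2 M (Fin b) (Fin c) Q U R W 1).mpr
      (h _ hpos hE)

end Pool.Agent.Helper92.AH
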