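import Pool.Agent.Helper92.AH.Defs

/-!
# MP_c38931_co: TEICH, congruence for one lifted value
-/

set_option autoImplicit false

namespace Pool.Agent.Helper92.AH

open MvPolynomial

theorem teich_cc {p : ℕ} [Fact p.Prime] {F E : Type} [Field F] [Field E] [Algebra F E] {N : ℕ}
    (f : MvPolynomial (Fin N) F) (x : Fin N → E) :
    (WittVector.constantCoeff : WittVector p E →+* E) (ev p x (tl p f)) = aeval x f := by
  unfold ev tl
  rw [eval₂_sum, map_sum]
  conv_rhs => rw [f.as_sum]
  rw [map_sum]
  refine Finset.sum_congr rfl fun w _ => ?_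
  rw [eval₂_monomial, map_mul, aeval_monomial]
  congr 1
  rw [Finsupp.prod, Finsupp.prod, map_prod]
  refine Finset.prod_congr rfl fun i _ => ?_
  rw [map_pow]
  simp [WittVector.constantCoeff]

theorem st_TEICH : ST_TEICH := by
  intro p _ F E _ _ _ _ _ _ N f x t m htm
  have hE : CharP E p := charP_of_injective_algebraMap (algebraMap F E).injective p
  have hP : PerfectRing E p := inferInstance
  have h1 : (p : WittVector p E) ∣ ev p x (tl p f) - WittVector.teichmuller p (aeval x f) := by
    rw [← Ideal.mem_span_singleton, WittVector.mem_span_p_iff_coeff_zero_eq_zero]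
    have h2 : (WittVector.constantCoeff : WittVector p E →+* E)
        (ev p x (tl p f) - WittVector.teichmuller p (aeval x f)) = 0 := by
      rw [map_sub, teich_cc]
      have : (WittVector.constantCoeff : WittVector p E →+* E)
          (WittVector.teichmuller p (aeval x f)) = aeval x f := by
        simp [WittVector.constantCoeff]
      rw [this, sub_self]
    exact h2
  obtain ⟨k, rfl⟩ := htm
  have h3 := dvd_sub_pow_of_dvd_sub h1 t
  have h4 : ev p x (tl p f ^ (p ^ t * k)) = (ev p x (tl p f) ^ p ^ t) ^ k := by
    unfold ev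
    rw [eval₂_pow, pow_mul]
  rw [h4, pow_mul]
  exact h3.trans (sub_dvd_pow_sub_pow _ _ _)

end Pool.Agent.Helper92.AH
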