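import Pool.Agent.Helper92.AH.Defs

/-!
# MP_c38931_co: WQ, the quotients of the ring of Witt vectors
-/

set_option autoImplicit false

namespace Pool.Agent.Helper92.AH

open MvPolynomial

theorem st_WQ : ST_WQ := by
  intro p hp F _ _ _ s
  have hP : PerfectRing F p := inferInstance
  have hne : (Ideal.span {(p : WittVector p F) ^ (s + 1)}) ≠ ⊤ := by
    intro h
    have h1 : (1 : WittVector p F) ∈ Ideal.span {(p : WittVector p F) ^ (s + 1)} := by
      rw [h]; trivial
    rw [WittVector.mem_span_p_pow_iff_le_coeff_eq_zero] at h1
    have h2 := h1 0 (Nat.succ_pos s)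
    simp at h2
  have hcc : ∀ z : WittVector p F, z ∈ Ideal.span {(p : WittVector p F) ^ (s + 1)} →
      (WittVector.constantCoeff : WittVector p F →+* F) z = 0 := by
    intro z hz
    rw [WittVector.mem_span_p_pow_iff_le_coeff_eq_zero] at hz
    exact hz 0 (Nat.succ_pos s)
  refine ⟨?_, ?_, ?_, ?_, ?_⟩
  · haveI : Fintype F := Fintype.ofFinite F
    let ψ : (WittVector p F ⧸ Ideal.span {(p : WittVector p F) ^ (s + 1)}) →+*
        TruncatedWittVector p (s + 1) F :=
      Ideal.Quotient.lift _ (WittVector.truncate (s + 1)) (by
        intro z hz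
        rw [WittVector.mem_span_p_pow_iff_le_coeff_eq_zero] at hz
        exact (WittVector.mem_ker_truncate (s + 1) z).mpr hz)
    have hinj : Function.Injective ψ := by
      rw [injective_iff_map_eq_zero]
      intro a ha
      obtain ⟨z, rfl⟩ := Ideal.Quotient.mk_surjective a
      rw [Ideal.Quotient.eq_zero_iff_mem, WittVector.mem_span_p_pow_iff_le_coeff_eq_zero]
      exact (WittVector.mem_ker_truncate (s + 1) z).mp ha
    exact Finite.of_injective ψ hinj
  · haveI : Nontrivial (WittVector p F ⧸ Ideal.span {(p : WittVector p F) ^ (s + 1)}) :=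
      Ideal.Quotient.nontrivial_iff.mpr hne
    exact IsLocalRing.of_surjective' (Ideal.Quotient.mk (Ideal.span {(p : WittVector p F) ^ (s + 1)}))
      Ideal.Quotient.mk_surjective
  · exact ⟨Ideal.Quotient.lift _ WittVector.constantCoeff hcc, fun z => rfl⟩
  · induction s with
    | zero => intro z _; simp
    | succ n ih =>
      intro z hz
      have h1 : (p : WittVector p F) ∣ (z : WittVector p F) := by
        refine dvd_trans ?_ hz
        exact dvd_pow_self _ (Nat.succ_ne_zero n)
      have h2 : ((z : ℤ) : F) = 0 := by
        rw [← Ideal.mem_span_singleton, WittVector.mem_span_p_iff_coeff_zero_eq_zero] at h1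
        have h3 : (WittVector.constantCoeff : WittVector p F →+* F) (z : WittVector p F) = 0 := h1
        rwa [map_intCast] at h3
      have h4 : (p : ℤ) ∣ z := (CharP.intCast_eq_zero_iff F p z).mp h2
      obtain ⟨w, rfl⟩ := h4
      have h5 : (p : WittVector p F) ^ n ∣ (w : WittVector p F) := by
        have h6 : (p : WittVector p F) * (p : WittVector p F) ^ n ∣
            (p : WittVector p F) * (w : WittVector p F) := by
          have : (p : WittVector p F) * (w : WittVector p F) = (((p : ℤ) * w : ℤ) : WittVector p F) := by
            push_cast; rfl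
          rw [this, ← pow_succ']
          exact hz
        exact (mul_dvd_mul_iff_left (WittVector.p_nonzero p F)).mp h6
      have h7 := ih ?_ ?_ w h5
      · rw [pow_succ']
        exact mul_dvd_mul_left _ h7
      · intro h
        have h1 : (1 : WittVector p F) ∈ Ideal.span {(p : WittVector p F) ^ (n + 1)} := by
          rw [h]; trivial
        rw [WittVector.mem_span_p_pow_iff_le_coeff_eq_zero] at h1
        have h2 := h1 0 (Nat.succ_pos n)
        simp at h2
      · intro z hz
        rw [WittVector.mem_span_p_pow_iff_le_coeff_eq_zero] at hz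
        exact hz 0 (Nat.succ_pos n)
  · intro N f
    unfold tl
    rw [map_sum]
    conv_rhs => rw [f.as_sum]
    refine Finset.sum_congr rfl fun w _ => ?_
    rw [map_monomial]
    congr 1

end Pool.Agent.Helper92.AH
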